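import Pool.Agent.H15.G.R_seed8.TH176.Nag.Defs

/-! Emptiness at one configuration implies emptiness at algebraically independent complex points. -/

namespace Pool.Agent.TH15.Nag

open Finset Pool.Agent.TH176.Nag

/-- a family of rows with trivial common kernel contains an invertible square submatrix -/
theorem exists_rows {K : Type*} [Field K] {R σ : Type*} [Fintype σ] [DecidableEq σ]
    (v : R → σ → K) (hker : ∀ c : σ → K, (∀ r, ∑ m, v r m * c m = 0) → c = 0) :
    ∃ a : σ → R, (Matrix.of fun j m => v (a j) m).det ≠ 0 := by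
  have hspan : Submodule.span K (Set.range v) = ⊤ := by
    by_contra hne
    obtain ⟨f, hf, hle⟩ := Submodule.exists_le_ker_of_lt_top _ (lt_top_iff_ne_top.2 hne)
    apply hf
    have hc : (fun m => f (Pi.single m 1)) = 0 := by
      apply hker
      intro r
      have h1 : f (v r) = 0 := hle (Submodule.subset_span ⟨r, rfl⟩)
      have h2 : v r = ∑ m, v r m • (Pi.single m (1 : K) : σ → K) := by
        funext j
        simp [Finset.sum_apply, Pi.single_apply]
      rw [h2, map_sum] at h1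
      simpa using h1
    apply LinearMap.pi_ext
    intro m x
    have h3 := congrFun hc m
    have h4 : (Pi.single m x : σ → K) = x • Pi.single m 1 := by
      funext j
      by_cases hj : j = m
      · subst hj; simp
      · simp [Pi.single_apply, hj]
    rw [h4, map_smul]
    have h5 : f (Pi.single m 1) = 0 := h3
    rw [h5]; simp
  obtain ⟨κ, a, ha, hs, hli⟩ := exists_linearIndependent' K v
  rw [hspan] at hs
  have hfin : Finite κ := by
    have := hli.finite
    exact this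
  have : Fintype κ := Fintype.ofFinite κ
  let b : Module.Basis κ K (σ → K) := Module.Basis.mk hli hs.ge
  have hcard : Fintype.card κ = Fintype.card σ := by
    have h1 := Module.finrank_eq_card_basis b
    rw [Module.finrank_fintype_fun_eq_card] at h1
    exact h1.symm
  let ε : σ ≃ κ := Fintype.equivOfCardEq hcard.symm
  refine ⟨fun j => a (ε j), ?_⟩
  have hli2 : LinearIndependent K (fun j => v (a (ε j))) := hli.comp ε ε.injective
  have h6 : IsUnit (Matrix.of fun j m => v (a (ε j)) m) := by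
    rw [← Matrix.linearIndependent_rows_iff_isUnit]
    exact hli2
  exact ((Matrix.isUnit_iff_isUnit_det _).1 h6).ne_zero

theorem Emp_generic {ι : Type} [Finite ι] {w : ι → ℕ} {S : Set (ℤ × ℤ)} (hfin : S.Finite)
    (hpos : ∀ m ∈ S, 0 ≤ m.1 ∧ 0 ≤ m.2) (h : Emp w S) {x y : ι → ℂ}
    (hxy : AlgebraicIndependent ℚ (fun q : ι × Fin 2 => ![x q.1, y q.1] q.2)) :
    ∀ f : (ℤ × ℤ) →₀ ℂ, (↑f.support : Set (ℤ × ℤ)) ⊆ S → (∀ i, LM f (x i) (y i) (w i)) → f = 0 := by
  classical
  obtain ⟨K, _, _, X, Y, hX, hY, hK⟩ := h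
  have : Fintype S := hfin.fintype
  -- rows
  let R := {r : ι × ℕ × ℕ // r.2.1 + r.2.2 < w r.1}
  -- the polynomial matrix
  let P : R → S → MvPolynomial (ι × Fin 2) ℚ := fun r m =>
    MvPolynomial.C (((m : ℤ × ℤ).1 : ℚ) ^ r.1.2.1 * ((m : ℤ × ℤ).2 : ℚ) ^ r.1.2.2) *
      (MvPolynomial.X (r.1.1, 0) ^ (m : ℤ × ℤ).1.toNat * MvPolynomial.X (r.1.1, 1) ^ (m : ℤ × ℤ).2.toNat)
  -- evaluation
  have heval : ∀ {L : Type} [Field L] [CharZero L] (u v : ι → L) (r : R) (m : S),
      MvPolynomial.aeval (fun q : ι × Fin 2 => ![u q.1, v q.1] q.2) (P r m) =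
        (((m : ℤ × ℤ).1 : L) ^ r.1.2.1 * ((m : ℤ × ℤ).2 : L) ^ r.1.2.2) *
          (u r.1.1 ^ (m : ℤ × ℤ).1 * v r.1.1 ^ (m : ℤ × ℤ).2) := by
    intro L _ _ u v r m
    obtain ⟨h1, h2⟩ := hpos m m.2
    simp only [P, map_mul, map_pow, MvPolynomial.aeval_X, MvPolynomial.aeval_C]
    have e1 : u r.1.1 ^ (m : ℤ × ℤ).1 = u r.1.1 ^ (m : ℤ × ℤ).1.toNat := by
      conv_lhs => rw [← Int.toNat_of_nonneg h1]
      rw [zpow_natCast]
    have e2 : v r.1.1 ^ (m : ℤ × ℤ).2 = v r.1.1 ^ (m : ℤ × ℤ).2.toNat := by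
      conv_lhs => rw [← Int.toNat_of_nonneg h2]
      rw [zpow_natCast]
    rw [e1, e2]
    simp
  -- linear equations
  have hpr : ∀ {L : Type} [Field L] [CharZero L] (u v : L) (f : (ℤ × ℤ) →₀ L),
      (↑f.support : Set (ℤ × ℤ)) ⊆ S → ∀ a b : ℕ,
      pr f u v (fun q : L × L => q.1 ^ a * q.2 ^ b) =
        ∑ m : S, (((m : ℤ × ℤ).1 : L) ^ a * ((m : ℤ × ℤ).2 : L) ^ b) *
          (u ^ (m : ℤ × ℤ).1 * v ^ (m : ℤ × ℤ).2) * f m := by
    intro L _ _ u v f hf a b
    unfold pr
    rw [Finsupp.sum_of_support_subset f (s := S.toFinset) (fun m hm => by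
      rw [Set.mem_toFinset]; exact hf hm) _ (by intro m _; ring)]
    rw [Finset.sum_subtype S.toFinset (p := fun m => m ∈ S) (fun m => Set.mem_toFinset)]
    refine Finset.sum_congr (by congr 1) fun m _ => ?_
    ring
  -- the rows
  obtain ⟨a, ha⟩ := exists_rows (fun (r : R) (m : S) => (((m : ℤ × ℤ).1 : K) ^ r.1.2.1 *
      ((m : ℤ × ℤ).2 : K) ^ r.1.2.2) * (X r.1.1 ^ (m : ℤ × ℤ).1 * Y r.1.1 ^ (m : ℤ × ℤ).2)) (by
    intro c hc
    let g : ℤ × ℤ → K := fun m => if hm : m ∈ S then c ⟨m, hm⟩ else 0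
    let f : (ℤ × ℤ) →₀ K := Finsupp.onFinset S.toFinset g (by
      intro m hm
      rw [Set.mem_toFinset]
      by_contra hn
      exact hm (dif_neg hn))
    have hfS : (↑f.support : Set (ℤ × ℤ)) ⊆ S := by
      intro m hm
      by_contra hn
      have : f m ≠ 0 := Finsupp.mem_support_iff.1 hm
      exact this (dif_neg hn)
    have hfc : ∀ m : S, f m = c m := fun m => dif_pos m.2
    have hf0 : f = 0 := by
      apply hK f hfS
      intro i
      apply LM_of_mono
      intro p q hpq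
      rw [hpr (X i) (Y i) f hfS p q]
      rw [← hc ⟨(i, p, q), hpq⟩]
      refine Finset.sum_congr rfl fun m _ => ?_
      rw [hfc]
    funext m
    rw [← hfc, hf0]
    rfl)
  -- the polynomial minor
  let D : MvPolynomial (ι × Fin 2) ℚ := (Matrix.of fun j m => P (a j) m).det
  have hD : ∀ {L : Type} [Field L] [CharZero L] (u v : ι → L),
      MvPolynomial.aeval (fun q : ι × Fin 2 => ![u q.1, v q.1] q.2) D =
        (Matrix.of fun (j : S) (m : S) => (((m : ℤ × ℤ).1 : L) ^ (a j).1.2.1 *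
          ((m : ℤ × ℤ).2 : L) ^ (a j).1.2.2) * (u (a j).1.1 ^ (m : ℤ × ℤ).1 *
          v (a j).1.1 ^ (m : ℤ × ℤ).2)).det := by
    intro L _ _ u v
    rw [AlgHom.map_det]
    congr 1
    ext j m
    exact heval u v (a j) m
  have hDne : D ≠ 0 := by
    intro h0
    apply ha
    rw [← hD X Y, h0, map_zero]
  have hDC : MvPolynomial.aeval (fun q : ι × Fin 2 => ![x q.1, y q.1] q.2) D ≠ 0 := by
    intro h0
    exact hDne ((injective_iff_map_eq_zero _).1 hxy D h0)
  rw [hD x y] at hDC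
  intro f hfS hfL
  have hvec : (fun m : S => f m) = 0 := by
    apply Matrix.eq_zero_of_mulVec_eq_zero hDC
    funext j
    have h1 := hpr (x (a j).1.1) (y (a j).1.1) f hfS (a j).1.2.1 (a j).1.2.2
    rw [hfL (a j).1.1 _ (mem_PF_mono (a j).2)] at h1
    rw [Matrix.mulVec, dotProduct]
    exact h1.symm
  ext m
  by_cases hm : m ∈ S
  · exact congrFun hvec ⟨m, hm⟩
  · by_contra hn
    exact hm (hfS (Finsupp.mem_support_iff.2 hn))

end Pool.Agent.TH15.Nag
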